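import Pool.Agent.H44.JoinC

open MeasureTheory Pool.Agent.H44.Ent
open scoped ENNReal

theorem Pool.Agent.Results.MP_e841a3_pr.Q1False.result : ∀ M : ℝ, 1 < M → ∀ C : ℝ,
    ∃ (μ : Measure ℝ) (n : ℕ), Adm M μ ∧ 1 ≤ n ∧ J μ ≠ ∞ ∧
      ENNReal.ofReal (C / n) * J μ < J (law μ n) :=
  fun M hM C => (Pool.Agent.H44.JoinC.result M hM C).1
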